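import Pool.Agent.K1H55.MB.Tr

/-!
# The Moebius function of the refinement order and the number of parts `≥ 2`

`Lam n` is the set of the partitions of `n`, ordered by refinement, `mu` its Moebius function, and
`big s` the number of the elements `≥ 2` of the multiset `s`.  For all `λ, ρ` with
`big ρ > big λ` the sum of the `μ(λ, ·)` over the partitions obtained from `ρ` by splitting
`0, 1, 2, …` of its parts `2` into `1 + 1` is zero; so `μ(λ, ρ) = 0` if `ρ` has at least two more parts
`≥ 2` than `λ`, or more parts `≥ 2` than `λ` and no part `2`.

Idea.  Let `H(z)` be the sum of the `μ(λ, ·)` over the partitions obtained from `z` in this way.  The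
defining equation of the Moebius function becomes `∑ H(y) = [λ = z]`, the sum over the `y ≤ z` for
which merging two parts `1` of `y` does not give a partition `≤ z`.  If `y ≤ z` has fewer parts `≥ 2`
than `z` then some part `≥ 2` of `z` is a sum of parts `1` of `y`, and `y` does not contribute.
-/

set_option autoImplicit false

namespace Pool.Agent.Results.MP_84e666_co.LargeParts

open Pool.Agent.K1H55.MB

/-- `Lam n`: the partitions of `n` with the refinement order, `mu` its Moebius function, `big` the
number of parts `≥ 2`, `D r` the partition `r` with one part `2` replaced by `1 + 1`. -/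
theorem result (n : ℕ) (l r : Lam n) :
    -- splitting parts `2` of a partition with more parts `≥ 2` than `l`
    (big l.parts < big r.parts →
      ∑ i ∈ Finset.range (r.parts.count 2 + 1), mu l (D^[i] r) = 0) ∧
    -- vanishing
    (big l.parts + 2 ≤ big r.parts → mu l r = 0) ∧
    (big l.parts < big r.parts → 2 ∉ r.parts → mu l r = 0) := by
  refine ⟨fun h => H_zero l r h, ?_, ?_⟩
  · intro h
    rw [H_rec, H_zero l r (by omega)]
    split_ifs with h2
    · have h3 : big (D r).parts + 1 = big r.parts := by
        rw [D_parts h2, big_cons, big_cons]
        conv_rhs => rw [← Multiset.cons_erase h2, big_cons]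
        norm_num
      rw [H_zero l (D r) (by omega), sub_zero]
    · rw [sub_zero]
  · intro h h2
    rw [H_rec, H_zero l r h, if_neg h2, sub_zero]

end Pool.Agent.Results.MP_84e666_co.LargeParts
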