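import Pool.Agent.K1H55.MB.Two

/-!
# The Moebius function `μ(λ, ρ)` of the refinement order for all `λ = ⟨c^m K⟩`, `K ≠ c`

`Lam n` is the set of the partitions of `n`, ordered by refinement (`λ ≤ ρ` if the parts of `λ` can be
split into blocks whose sums are the parts of `ρ`); `mu` is its Moebius function
(`IncidenceAlgebra.mu` of Mathlib for this order).

For every partition `λ = ⟨c^m K⟩` in which all parts but one are equal, `K ≠ c`, all values `μ(λ, ρ)`
are determined: they are `(-1)^j` for `ρ = ⟨c^(m-j) (K+jc)⟩`, `-(-1)^j` for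
`ρ = ⟨c^(m-2-j) (2c) (K+jc)⟩`, and `0` for all other `ρ`.

Idea.  If `c` does not divide `K` this follows from the recursion for separated parts (file
`SeparatedPart` of this folder) and the known case of equal parts.  If `c` divides `K` one may assume
`c = 1`, `K ≥ 2`.  Let `D z` be the partition `z` with a part `2` replaced by `1 + 1`, and let `H(z)`
be the sum of the `μ(λ, D^i z)` over all `i` up to the number of parts `2` of `z`.  Then
`∑ H(y) = [λ = z]`, the sum over those `y ≤ z` for which merging two parts `1` of `y` does not give a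
partition `≤ z`.  It follows by induction that `H(z) = 0` if `z` has more parts `≥ 2` than `λ`, and
for hooks the recursion is solved by `H(⟨1^(m-j) (K+j)⟩) = (-1)^j`.
-/

set_option autoImplicit false

namespace Pool.Agent.Results.MP_84e666_co.OneOtherPart

open Pool.Agent.K1H55.MB

/-- the case `K = d k` -/
theorem divisible (n d k m : ℕ) (hd : 1 ≤ d) (hk : 2 ≤ k) (l r : Lam n)
    (hl : l.parts = (d * k) ::ₘ Multiset.replicate m d) :
    (∀ j, j ≤ m → r.parts = (d * (k + j)) ::ₘ Multiset.replicate (m - j) d →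
      mu l r = (-1) ^ j) ∧
    (∀ j, j + 2 ≤ m →
      r.parts = (d * (k + j)) ::ₘ (2 * d) ::ₘ Multiset.replicate (m - 2 - j) d →
      mu l r = -(-1) ^ j) ∧
    ((∀ j, j ≤ m → r.parts ≠ (d * (k + j)) ::ₘ Multiset.replicate (m - j) d) →
      (∀ j, j + 2 ≤ m →
        r.parts ≠ (d * (k + j)) ::ₘ (2 * d) ::ₘ Multiset.replicate (m - 2 - j) d) →
      mu l r = 0) := by
  have hn : n = d * (k + m) := by
    have := l.sum
    rw [hl, Multiset.sum_cons, Multiset.sum_replicate, smul_eq_mul] at this
    rw [← this]
    ring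
  subst hn
  have hinj : Function.Injective (fun x : ℕ => d * x) := fun x y h =>
    Nat.eq_of_mul_eq_mul_left hd h
  let l' : Lam (k + m) := mk (k ::ₘ Multiset.replicate m 1) (by
    intro a ha
    rw [Multiset.mem_cons] at ha
    rcases ha with rfl | ha
    · omega
    · rw [Multiset.eq_of_mem_replicate ha]; norm_num) (by simp)
  have hl' : l'.parts = k ::ₘ Multiset.replicate m 1 := rfl
  have hll : l = scale d hd l' := Lam.ext (by rw [hl, scale_parts, hl']; simp)
  have conv1 : ∀ (r' : Lam (k + m)) (j : ℕ), (scale d hd r').parts =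
      (d * (k + j)) ::ₘ Multiset.replicate (m - j) d ↔
      r'.parts = (k + j) ::ₘ Multiset.replicate (m - j) 1 := by
    intro r' j
    rw [scale_parts]
    have e : (d * (k + j)) ::ₘ Multiset.replicate (m - j) d =
        ((k + j) ::ₘ Multiset.replicate (m - j) 1).map (d * ·) := by simp
    rw [e]
    exact (Multiset.map_injective hinj).eq_iff
  have conv2 : ∀ (r' : Lam (k + m)) (j : ℕ), (scale d hd r').parts =
      (d * (k + j)) ::ₘ (2 * d) ::ₘ Multiset.replicate (m - 2 - j) d ↔
      r'.parts = (k + j) ::ₘ 2 ::ₘ Multiset.replicate (m - 2 - j) 1 := by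
    intro r' j
    rw [scale_parts]
    have e : (d * (k + j)) ::ₘ (2 * d) ::ₘ Multiset.replicate (m - 2 - j) d =
        ((k + j) ::ₘ 2 ::ₘ Multiset.replicate (m - 2 - j) 1).map (d * ·) := by
      simp [mul_comm]
    rw [e]
    exact (Multiset.map_injective hinj).eq_iff
  have key : l ≤ r → ∃ r' : Lam (k + m), r = scale d hd r' := by
    intro h
    rw [hll, le_def, scale_parts] at h
    obtain ⟨s, h1, -⟩ := ref_scale h
    have h3 : s.sum = k + m := by
      have := r.sum
      rw [h1, Multiset.sum_map_mul_left, Multiset.map_id'] at this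
      exact Nat.eq_of_mul_eq_mul_left hd this
    refine ⟨mk s (fun a ha => ?_) h3, Lam.ext (by rw [scale_parts, mk_parts, h1])⟩
    have := r.pos (a := d * a) (by rw [h1]; exact Multiset.mem_map_of_mem _ ha)
    exact Nat.pos_of_mul_pos_left this
  refine ⟨?_, ?_, ?_⟩
  · intro j hj hr
    let r' : Lam (k + m) := mk ((k + j) ::ₘ Multiset.replicate (m - j) 1) (by
      intro a ha
      rw [Multiset.mem_cons] at ha
      rcases ha with rfl | ha
      · omega
      · rw [Multiset.eq_of_mem_replicate ha]; norm_num) (by simp; omega)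
    have hr' : r = scale d hd r' := Lam.ext (by rw [hr]; exact ((conv1 r' j).2 rfl).symm)
    rw [hll, hr', mu_scale]
    exact (hook hk hl' r').1 j hj rfl
  · intro j hj hr
    let r' : Lam (k + m) := mk ((k + j) ::ₘ 2 ::ₘ Multiset.replicate (m - 2 - j) 1) (by
      intro a ha
      rw [Multiset.mem_cons, Multiset.mem_cons] at ha
      rcases ha with rfl | rfl | ha
      · omega
      · norm_num
      · rw [Multiset.eq_of_mem_replicate ha]; norm_num) (by simp; omega)
    have hr' : r = scale d hd r' := Lam.ext (by rw [hr]; exact ((conv2 r' j).2 rfl).symm)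
    rw [hll, hr', mu_scale]
    exact (hook hk hl' r').2.1 j hj rfl
  · intro h1 h2
    by_contra hc
    obtain ⟨r', rfl⟩ := key (mu_ne hc)
    apply hc
    rw [hll, mu_scale]
    exact (hook hk hl' r').2.2 (fun j hj h => h1 j hj ((conv1 r' j).2 h))
      (fun j hj h => h2 j hj ((conv2 r' j).2 h))

/-- `Lam n`: the partitions of `n` with the refinement order, `mu` its Moebius function.  Let `c ≥ 1`,
`K ≥ 1`, `K ≠ c`, and let `l` be the partition with one part `K` and `m` parts `c`.
* `μ(l, r) = (-1) ^ j` if `r` has the parts `K + j c` and `m - j` times `c`;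
* `μ(l, r) = -(-1) ^ j` if `r` has the parts `K + j c`, `2 c` and `m - 2 - j` times `c`;
* `μ(l, r) = 0` for all other `r`. -/
theorem result (n c K m : ℕ) (hc : 1 ≤ c) (hK : 1 ≤ K) (hcK : K ≠ c) (l r : Lam n)
    (hl : l.parts = K ::ₘ Multiset.replicate m c) :
    (∀ j, j ≤ m → r.parts = (K + j * c) ::ₘ Multiset.replicate (m - j) c →
      mu l r = (-1) ^ j) ∧
    (∀ j, j + 2 ≤ m →
      r.parts = (K + j * c) ::ₘ (2 * c) ::ₘ Multiset.replicate (m - 2 - j) c →
      mu l r = -(-1) ^ j) ∧
    ((∀ j, j ≤ m → r.parts ≠ (K + j * c) ::ₘ Multiset.replicate (m - j) c) →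
      (∀ j, j + 2 ≤ m →
        r.parts ≠ (K + j * c) ::ₘ (2 * c) ::ₘ Multiset.replicate (m - 2 - j) c) →
      mu l r = 0) := by
  by_cases h : c ∣ K
  · obtain ⟨k, rfl⟩ := h
    have hk : 2 ≤ k := by
      rcases Nat.lt_or_ge k 2 with h1 | h1
      · exfalso
        interval_cases k
        · omega
        · exact hcK (mul_one c)
      · exact h1
    have e : ∀ j, c * k + j * c = c * (k + j) := fun j => by ring
    simp only [e]
    exact divisible n c k m hc hk l r hl
  · exact two_sizes hK hc h l r hl

end Pool.Agent.Results.MP_84e666_co.OneOtherPart
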