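import Pool.Agent.K1H55.MB.Sep

/-!
# The Moebius function of the refinement order for partitions with a separated part

Let `l` be a partition and `K` a positive integer which is not a difference `∑ B - ∑ A` of the sums of
two sub-multisets of `l` (for example `K` larger than the sum of `l`, or all parts of `l` divisible by
some `d` and `K` not).  Then the Moebius function of the refinement order at the partition `K, l` is
expressed by the Moebius function at the partitions contained in `l`:
`μ(K ∪ l, z) = ∑ (-1)^(|A|) arr(A) μ(l - A, z - (K + ∑ A))`, the sum over all sub-multisets `A` of `l`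
such that `K + ∑ A` is a part of `z`, where `|A|` is the number of elements of `A` and `arr(A)` the
number of the distinct arrangements of `A` in a row.

Idea.  Check the defining equation of the Moebius function.  If `l - A ≤ y` then `(K + ∑ A) ∪ y` is
below `(K + s) ∪ r` if and only if `t = ∑ A ≤ s` and `y ≤ (s - t) ∪ r`, and so in the sum of the right
hand sides over all partitions below `(K + s) ∪ r` only the `A` with `l - A = (s - t) ∪ r` remain: with
`E = l - r`, these are `E` and the multisets `E` without one element `u`, and
`arr(E) = ∑ arr(E - u)` over the distinct elements `u` of `E`.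
-/

set_option autoImplicit false

namespace Pool.Agent.Results.MP_84e666_co.SeparatedPart

open Pool.Agent.K1H55.MB

/-- `Lam n`: the partitions of `n` with the refinement order, `mu` its Moebius function; `muM l r` is
the Moebius function at the partitions with the multisets of parts `l` and `r` (`0` if `l` and `r` have
different sums), and `arr A = |A|! / ∏ (multiplicities)!`.  Let `l`, `z` be multisets of positive
integers and `K ≥ 1` such that `K + ∑ A ≠ ∑ B` for all sub-multisets `A`, `B` of `l`. -/
theorem result :
    (∀ (n : ℕ) (l r : Lam n), muM l.parts r.parts = mu l r) ∧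
    ∀ (K : ℕ) (l z : Multiset ℕ), 0 < K → (∀ a ∈ l, 0 < a) → (∀ a ∈ z, 0 < a) →
      (∀ A B, A ≤ l → B ≤ l → K + A.sum ≠ B.sum) → z.sum = K + l.sum →
      muM (K ::ₘ l) z =
        ∑ A ∈ l.powerset.toFinset with K + A.sum ∈ z,
          (-1) ^ (Multiset.card A) * arr A * muM (l - A) (z.erase (K + A.sum)) := by
  classical
  refine ⟨fun n l r => muM_eq l r, ?_⟩
  intro K l z hK hl hz hsep hs
  let L : Lam l.sum := mk l hl rfl
  let lp : Lam (K + l.sum) := mk (K ::ₘ l) (by
    intro a ha
    rcases Multiset.mem_cons.1 ha with rfl | ha
    · omega
    · exact hl a ha) (by rw [Multiset.sum_cons])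
  let Z : Lam (K + l.sum) := mk z hz hs
  have h1 : muM (K ::ₘ l) z = mu lp Z := muM_eq lp Z
  have h2 := sep hK L hsep lp rfl Z
  rw [h1, ← h2]
  show F K l z = _
  unfold F
  rw [Finset.sum_filter]
  refine Finset.sum_congr rfl fun A _ => ?_
  split_ifs
  · rfl
  · rw [mul_zero]

end Pool.Agent.Results.MP_84e666_co.SeparatedPart
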